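import Mathlib

/-!
# Degenerate graphs, and graphs pandichotomous in `ℝ^k`
-/

namespace Pool.Agent.H9.Pandi

/-- `G` is `d`-degenerate: every nonempty subgraph has a vertex of degree at most `d`. -/
def IsDegenerate {V : Type} (G : SimpleGraph V) (d : ℕ) : Prop :=
  ∀ H : G.Subgraph, H.verts.Nonempty → ∃ v ∈ H.verts, (H.neighborSet v).encard ≤ d

/-- The injective map `p : V → ℝ^k` with threshold `δ > 0` realizes the dichotomous ordinal graph
`G` with set of short edges `Es`: an edge has length at most `δ` if and only if it is short. -/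
def Realizes {V : Type} {k : ℕ} (G : SimpleGraph V) (Es : Set (Sym2 V))
    (p : V → EuclideanSpace ℝ (Fin k)) (δ : ℝ) : Prop :=
  0 < δ ∧ Function.Injective p ∧ ∀ u v, G.Adj u v → (dist (p u) (p v) ≤ δ ↔ s(u, v) ∈ Es)

/-- `G` is pandichotomous in `ℝ^k`: for every set `Es` of short edges of `G` (the other edges being
long) there is a geometric realization in `ℝ^k`. -/
def Pandichotomous {V : Type} (k : ℕ) (G : SimpleGraph V) : Prop :=
  ∀ Es ⊆ G.edgeSet, ∃ (p : V → EuclideanSpace ℝ (Fin k)) (δ : ℝ), Realizes G Es p δ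

end Pool.Agent.H9.Pandi
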